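import Mathlib
import Pool.Agent.Q223.Poly

/-!
# Vertices of polytopes are strictly exposed
-/

set_option autoImplicit false

namespace Pool.Agent.Q223.Poly

open Module Pool.Agent.Q223.PG

variable {E : Type*} [NormedAddCommGroup E] [NormedSpace ℝ E] [FiniteDimensional ℝ E]

/-- the configuration of the vertices of a polytope -/
theorem conf_polytope {S : Set E} (hSf : S.Finite) (hSn : S.Nonempty) :
    ((convexHull ℝ S).extremePoints ℝ).Finite ∧ ((convexHull ℝ S).extremePoints ℝ).Nonempty ∧
      Conf (fun v : (convexHull ℝ S).extremePoints ℝ => (v : E)) ∧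
      convexHull ℝ ((convexHull ℝ S).extremePoints ℝ) = convexHull ℝ S := by
  have hfin : ((convexHull ℝ S).extremePoints ℝ).Finite :=
    hSf.subset extremePoints_convexHull_subset
  have hhull : convexHull ℝ ((convexHull ℝ S).extremePoints ℝ) = convexHull ℝ S := by
    have h2 := closure_convexHull_extremePoints (hSf.isCompact_convexHull (𝕜 := ℝ))
      (convex_convexHull ℝ S)
    conv_rhs => rw [← h2]
    exact (hfin.isCompact_convexHull (𝕜 := ℝ)).isClosed.closure_eq.symm
  refine ⟨hfin, ?_, ?_, hhull⟩
  · by_contra hne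
    rw [Set.not_nonempty_iff_eq_empty] at hne
    rw [hne, convexHull_empty] at hhull
    obtain ⟨x, hx⟩ := hSn
    have := subset_convexHull ℝ S hx
    rw [← hhull] at this
    exact this
  · intro v
    have hnot : (v : E) ∉ convexHull ℝ ((convexHull ℝ S).extremePoints ℝ \ {(v : E)}) := by
      intro hmem
      have h1 : (v : E) ∈ (convexHull ℝ ((convexHull ℝ S).extremePoints ℝ \
          {(v : E)})).extremePoints ℝ := by
        have hsub : convexHull ℝ ((convexHull ℝ S).extremePoints ℝ \ {(v : E)}) ⊆
            convexHull ℝ S := by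
          conv_rhs => rw [← hhull]
          exact convexHull_mono Set.sdiff_subset
        exact inter_extremePoints_subset_extremePoints_of_subset hsub ⟨hmem, v.2⟩
      exact (extremePoints_convexHull_subset h1).2 rfl
    have hcl : IsClosed (convexHull ℝ ((convexHull ℝ S).extremePoints ℝ \ {(v : E)})) :=
      ((hfin.subset Set.sdiff_subset).isCompact_convexHull (𝕜 := ℝ)).isClosed
    obtain ⟨f, u, hf1, hf2⟩ := geometric_hahn_banach_closed_point (convex_convexHull ℝ _) hcl hnot
    refine ⟨(f : E →ₗ[ℝ] ℝ), fun w hw => ?_⟩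
    have : (w : E) ∈ convexHull ℝ ((convexHull ℝ S).extremePoints ℝ \ {(v : E)}) :=
      subset_convexHull ℝ _ ⟨w.2, fun h => hw (Subtype.ext h)⟩
    exact (hf1 _ this).trans hf2

/-- vertices of polytopes are exposed -/
theorem vertex_exposed {S : Set E} (hSf : S.Finite) (hSn : S.Nonempty) {v : E}
    (hv : v ∈ (convexHull ℝ S).extremePoints ℝ) : IsExposed ℝ (convexHull ℝ S) {v} := by
  obtain ⟨hfin, -, hV, hhull⟩ := conf_polytope hSf hSn
  have : Finite ((convexHull ℝ S).extremePoints ℝ) := hfin
  have hr : Set.range (fun v : (convexHull ℝ S).extremePoints ℝ => (v : E)) =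
      (convexHull ℝ S).extremePoints ℝ := Subtype.range_val
  obtain ⟨l, hl⟩ := hV ⟨v, hv⟩
  have h := (exposed_iff hV {⟨v, hv⟩} ⟨_, rfl⟩).2
    ⟨l, l v, fun i hi => by rw [hi], fun i hi => hl i hi⟩
  rw [hr, hhull, Set.image_singleton, convexHull_singleton] at h
  exact h

/-- every nonempty exposed face of a polytope contains a vertex -/
theorem exists_vertex {S : Set E} (hSf : S.Finite) {F : Set E} (hF : IsExposed ℝ (convexHull ℝ S) F)
    (hne : F.Nonempty) : ∃ v ∈ (convexHull ℝ S).extremePoints ℝ, v ∈ F := by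
  have hc : IsCompact F := hF.isCompact (hSf.isCompact_convexHull (𝕜 := ℝ))
  obtain ⟨v, hv⟩ := hc.extremePoints_nonempty hne
  exact ⟨v, hF.isExtreme.extremePoints_subset_extremePoints hv, hv.1⟩

end Pool.Agent.Q223.Poly
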