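import Mathlib

/-!
# The explicit 7-polytope
-/

set_option autoImplicit false

namespace Pool.Agent.Q223.VF

open Module

/-- sign -/
def sg (b : Bool) : ℝ := if b then 1 else -1

@[simp] lemma sg_true : sg true = 1 := rfl
@[simp] lemma sg_false : sg false = -1 := rfl

lemma sg_mul (b : Bool) : sg b * sg b = 1 := by cases b <;> simp

lemma sg_not (b : Bool) : sg (!b) = -sg b := by cases b <;> simp

/-- lower edges other than `0` -/
abbrev LI : Type := {i : ℤ // i ∈ (Finset.Icc (-6 : ℤ) 6).erase 0}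

/-- vertices of the polygon -/
abbrev PI : Type := {i : ℤ // i ∈ Finset.Icc (-6 : ℤ) 7}

/-- inequalities -/
inductive Idx
  | L (i : LI)
  | U
  | T (b : Bool)
  | V (e : Fin 3 → Bool)
  | L' (b : Bool)
  | T' (b : Bool)
  | V' (e : Fin 3 → Bool)

/-- points -/
inductive Pt
  | P (i : PI) (b : Bool)
  | Q (k : Fin 3) (b : Bool)
  | X

/-- sum of types equivalent to `Idx` -/
def idxEquiv : Idx ≃ (LI ⊕ Unit ⊕ Bool ⊕ (Fin 3 → Bool) ⊕ Bool ⊕ Bool ⊕ (Fin 3 → Bool)) where
  toFun
    | .L i => .inl i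
    | .U => .inr (.inl ())
    | .T b => .inr (.inr (.inl b))
    | .V e => .inr (.inr (.inr (.inl e)))
    | .L' b => .inr (.inr (.inr (.inr (.inl b))))
    | .T' b => .inr (.inr (.inr (.inr (.inr (.inl b)))))
    | .V' e => .inr (.inr (.inr (.inr (.inr (.inr e)))))
  invFun
    | .inl i => .L i
    | .inr (.inl ()) => .U
    | .inr (.inr (.inl b)) => .T b
    | .inr (.inr (.inr (.inl e))) => .V e
    | .inr (.inr (.inr (.inr (.inl b)))) => .L' b
    | .inr (.inr (.inr (.inr (.inr (.inl b))))) => .T' b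
    | .inr (.inr (.inr (.inr (.inr (.inr e))))) => .V' e
  left_inv := by intro x; cases x <;> rfl
  right_inv := by
    rintro (i | ⟨⟩ | b | e | b | b | e) <;> rfl

/-- sum of types equivalent to `Pt` -/
def ptEquiv : Pt ≃ ((PI × Bool) ⊕ (Fin 3 × Bool) ⊕ Unit) where
  toFun
    | .P i b => .inl (i, b)
    | .Q k b => .inr (.inl (k, b))
    | .X => .inr (.inr ())
  invFun
    | .inl (i, b) => .P i b
    | .inr (.inl (k, b)) => .Q k b
    | .inr (.inr ()) => .X
  left_inv := by intro x; cases x <;> rfl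
  right_inv := by
    rintro (⟨i, b⟩ | ⟨k, b⟩ | ⟨⟩) <;> rfl

noncomputable instance : Fintype Idx := Fintype.ofEquiv _ idxEquiv.symm
noncomputable instance : Fintype Pt := Fintype.ofEquiv _ ptEquiv.symm

lemma card_PI : Fintype.card PI = 14 := by
  rw [Fintype.card_coe]; decide

lemma card_LI : Fintype.card LI = 12 := by
  rw [Fintype.card_coe]; decide

lemma card_Idx : Nat.card Idx = 35 := by
  rw [Nat.card_congr idxEquiv, Nat.card_eq_fintype_card]
  simp only [Fintype.card_sum, card_LI, Fintype.card_unit, Fintype.card_bool, Fintype.card_fun,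
    Fintype.card_fin]
  norm_num

lemma card_Pt : Nat.card Pt = 35 := by
  rw [Nat.card_congr ptEquiv, Nat.card_eq_fintype_card]
  simp only [Fintype.card_sum, Fintype.card_prod, card_PI, Fintype.card_unit, Fintype.card_bool,
    Fintype.card_fin]

/-- coordinates -/
abbrev R7 : Type := Fin 7 → ℝ

/-- the linear parts -/
noncomputable def lin : Idx → R7 → ℝ
  | .L i, z => (2 * (i : ℤ) + 1) * z 0 + (i : ℤ) * ((i : ℤ) + 1) * z 6 - z 1
  | .U, z => z 1 - z 0 + 42 * z 6
  | .T b, z => sg b * z 2 + z 6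
  | .V e, z => sg (e 0) * z 3 + sg (e 1) * z 4 + sg (e 2) * z 5 - z 6
  | .L' b, z => (if b then 2 * z 0 + z 6 else 0) - z 1
  | .T' b, z => 2 * z 0 - 2 * z 1 + sg b * z 2 + z 6
  | .V' e, z => 2 * z 0 - 2 * z 1 + sg (e 0) * z 3 + sg (e 1) * z 4 + sg (e 2) * z 5 - z 6

/-- the constants -/
noncomputable def cst : Idx → ℝ
  | .L i => (i : ℤ) * ((i : ℤ) + 1)
  | .U => 42
  | .T _ => 1
  | .V _ => 0
  | .L' b => if b then 1 else 0
  | .T' _ => 1
  | .V' _ => 0

/-- the points -/
noncomputable def pt : Pt → R7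
  | .P i b => ![(i : ℤ), (i : ℤ) ^ 2, sg b, 0, 0, 0, 0]
  | .Q k b => fun m => if m = 6 then 1 else if (m : ℕ) = k + 3 then sg b else 0
  | .X => ![1 / 4, 0, 0, 0, 0, 0, 1 / 2]

lemma lin_isLinear (i : Idx) : IsLinearMap ℝ (lin i) := by
  constructor
  · intro x y
    cases i <;> simp only [lin, Pi.add_apply] <;> (try split_ifs) <;> ring
  · intro c x
    cases i <;> simp only [lin, Pi.smul_apply, smul_eq_mul] <;> (try split_ifs) <;> ring

@[simp] lemma pP0 (i : PI) (b : Bool) : pt (.P i b) 0 = (i : ℤ) := rfl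
@[simp] lemma pP1 (i : PI) (b : Bool) : pt (.P i b) 1 = ((i : ℤ) : ℝ) ^ 2 := rfl
@[simp] lemma pP2 (i : PI) (b : Bool) : pt (.P i b) 2 = sg b := rfl
@[simp] lemma pP3 (i : PI) (b : Bool) : pt (.P i b) 3 = 0 := rfl
@[simp] lemma pP4 (i : PI) (b : Bool) : pt (.P i b) 4 = 0 := rfl
@[simp] lemma pP5 (i : PI) (b : Bool) : pt (.P i b) 5 = 0 := rfl
@[simp] lemma pP6 (i : PI) (b : Bool) : pt (.P i b) 6 = 0 := rfl
@[simp] lemma pX0 : pt .X 0 = 1 / 4 := rfl
@[simp] lemma pX1 : pt .X 1 = 0 := rfl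
@[simp] lemma pX2 : pt .X 2 = 0 := rfl
@[simp] lemma pX3 : pt .X 3 = 0 := rfl
@[simp] lemma pX4 : pt .X 4 = 0 := rfl
@[simp] lemma pX5 : pt .X 5 = 0 := rfl
@[simp] lemma pX6 : pt .X 6 = 1 / 2 := rfl

@[simp] lemma pQ0 (k : Fin 3) (b : Bool) : pt (.Q k b) 0 = 0 := by
  fin_cases k <;> simp [pt]
@[simp] lemma pQ1 (k : Fin 3) (b : Bool) : pt (.Q k b) 1 = 0 := by
  fin_cases k <;> simp [pt]
@[simp] lemma pQ2 (k : Fin 3) (b : Bool) : pt (.Q k b) 2 = 0 := by
  fin_cases k <;> simp [pt]
@[simp] lemma pQ6 (k : Fin 3) (b : Bool) : pt (.Q k b) 6 = 1 := by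
  simp [pt]

lemma vQ (e : Fin 3 → Bool) (k : Fin 3) (b : Bool) :
    sg (e 0) * pt (.Q k b) 3 + sg (e 1) * pt (.Q k b) 4 + sg (e 2) * pt (.Q k b) 5 =
      sg (e k) * sg b := by
  fin_cases k <;> simp [pt]

/-- slack of the lower edges at the polygon vertices -/
lemma slack_L (i : LI) (j : PI) (b : Bool) :
    lin (.L i) (pt (.P j b)) - cst (.L i) = -(((j : ℤ) - (i : ℤ)) * ((j : ℤ) - (i : ℤ) - 1) : ℤ) := by
  simp only [lin, cst, pP0, pP1, pP6]
  push_cast
  ring

lemma int_prod_nonneg (a : ℤ) : 0 ≤ a * (a - 1) := by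
  rcases le_or_gt a 0 with h | h
  · nlinarith
  · have : 1 ≤ a := h
    nlinarith

/-- all points satisfy all inequalities -/
lemma pt_le (i : Idx) (p : Pt) : lin i (pt p) ≤ cst i := by
  have hsg : ∀ b, sg b ≤ 1 := fun b => by cases b <;> simp
  have hsg' : ∀ b, -1 ≤ sg b := fun b => by cases b <;> simp
  have hmul : ∀ b b', sg b * sg b' ≤ 1 := fun b b' => by cases b <;> cases b' <;> simp
  cases p with
  | P j b =>
    obtain ⟨j, hj⟩ := j
    rw [Finset.mem_Icc] at hj
    cases i with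
    | L i =>
      have h1 := slack_L i ⟨j, Finset.mem_Icc.2 hj⟩ b
      have h2 : (0 : ℝ) ≤ ((j - (i : ℤ)) * (j - (i : ℤ) - 1) : ℤ) := by
        exact_mod_cast int_prod_nonneg _
      linarith
    | U =>
      simp only [lin, cst, pP0, pP1, pP6]
      have h2 : (0 : ℤ) ≤ (7 - j) * (j + 6) := mul_nonneg (by omega) (by omega)
      have h3 : (0 : ℝ) ≤ ((7 - j) * (j + 6) : ℤ) := by exact_mod_cast h2
      push_cast at h3
      nlinarith
    | T b' =>
      simp only [lin, cst, pP2, pP6]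
      linarith [hmul b' b]
    | V e => simp [lin, cst]
    | L' b' =>
      have h2 : (0 : ℝ) ≤ (j * (j - 1) : ℤ) := by exact_mod_cast int_prod_nonneg _
      push_cast at h2
      cases b'
      · simp only [lin, cst, pP0, pP1, pP6]
        simp
        positivity
      · simp only [lin, cst, pP0, pP1, pP6]
        simp
        nlinarith [sq_nonneg ((j : ℝ) - 1)]
    | T' b' =>
      simp only [lin, cst, pP0, pP1, pP2, pP6]
      have h2 : (0 : ℝ) ≤ (j * (j - 1) : ℤ) := by exact_mod_cast int_prod_nonneg _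
      push_cast at h2
      have := hmul b' b
      nlinarith
    | V' e =>
      simp only [lin, cst, pP0, pP1, pP3, pP4, pP5, pP6]
      have h2 : (0 : ℝ) ≤ (j * (j - 1) : ℤ) := by exact_mod_cast int_prod_nonneg _
      push_cast at h2
      nlinarith
  | Q k b =>
    cases i with
    | L i => simp [lin, cst]
    | U => simp [lin, cst]
    | T b' => simp [lin, cst]
    | V e =>
      show sg (e 0) * pt (.Q k b) 3 + sg (e 1) * pt (.Q k b) 4 + sg (e 2) * pt (.Q k b) 5 -
        pt (.Q k b) 6 ≤ 0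
      rw [vQ, pQ6]
      linarith [hmul (e k) b]
    | L' b' => cases b' <;> simp [lin, cst]
    | T' b' => simp [lin, cst]
    | V' e =>
      have h : lin (.V' e) (pt (.Q k b)) = 2 * pt (.Q k b) 0 - 2 * pt (.Q k b) 1 +
        (sg (e 0) * pt (.Q k b) 3 + sg (e 1) * pt (.Q k b) 4 + sg (e 2) * pt (.Q k b) 5) -
          pt (.Q k b) 6 := by
        simp only [lin]; ring
      rw [h, vQ, pQ0, pQ1, pQ6]
      show _ ≤ (0 : ℝ)
      linarith [hmul (e k) b]
  | X =>
    cases i with
    | L i =>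
      obtain ⟨i, hi⟩ := i
      have hi0 : i ≠ 0 := (Finset.mem_erase.1 hi).1
      simp only [lin, cst, pX0, pX1, pX6]
      have h2 : (0 : ℤ) ≤ 2 * i ^ 2 - 1 := by
        have : 1 ≤ i ^ 2 := by
          have := Int.one_le_abs hi0
          nlinarith [abs_mul_abs_self i]
        omega
      have h3 : (0 : ℝ) ≤ (2 * i ^ 2 - 1 : ℤ) := by exact_mod_cast h2
      push_cast at h3
      nlinarith
    | U => simp [lin, cst]; norm_num
    | T b' => simp [lin, cst]; norm_num
    | V e => simp [lin, cst]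
    | L' b' => cases b' <;> simp [lin, cst]; norm_num
    | T' b' => simp [lin, cst]; norm_num
    | V' e => simp [lin, cst]; norm_num

/-- the polytope, as a convex hull -/
def K : Set R7 := convexHull ℝ (Set.range pt)

lemma K_le {z : R7} (hz : z ∈ K) (i : Idx) : lin i z ≤ cst i := by
  have h : K ⊆ {z | lin i z ≤ cst i} := by
    apply convexHull_min
    · rintro _ ⟨p, rfl⟩; exact pt_le i p
    · exact convex_halfSpace_le (lin_isLinear i) _
  exact h hz

lemma K_convex : Convex ℝ K := convex_convexHull ℝ _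

lemma pt_mem (p : Pt) : pt p ∈ K := subset_convexHull ℝ _ ⟨p, rfl⟩

lemma conv2 {x y z : R7} (hx : x ∈ K) (hy : y ∈ K) {c : ℝ} (h0 : 0 ≤ c) (h1 : c ≤ 1)
    (h : ∀ j, z j = (1 - c) * x j + c * y j) : z ∈ K := by
  have : z = (1 - c) • x + c • y := by
    ext j; rw [h j]; simp
  rw [this]
  exact K_convex hx hy (by linarith) h0 (by ring)

/-- points with coordinates in the first factor -/
def p1 (x y h : ℝ) : R7 := ![x, y, h, 0, 0, 0, 0]

lemma p1_int (i : ℤ) (hi : -6 ≤ i) (hi' : i ≤ 7) (h : ℝ) (hh : |h| ≤ 1) :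
    p1 i ((i : ℝ) ^ 2) h ∈ K := by
  obtain ⟨h1, h2⟩ := abs_le.1 hh
  refine conv2 (pt_mem (.P ⟨i, Finset.mem_Icc.2 ⟨hi, hi'⟩⟩ false))
    (pt_mem (.P ⟨i, Finset.mem_Icc.2 ⟨hi, hi'⟩⟩ true)) (c := (1 + h) / 2) (by linarith)
    (by linarith) ?_
  intro j
  fin_cases j <;> simp [p1, pt] <;> ring

lemma p1_mem (x y h : ℝ) (hh : |h| ≤ 1)
    (hL : ∀ i : ℤ, -6 ≤ i → i ≤ 6 → (2 * i + 1) * x - y ≤ i * (i + 1)) (hU : y - x ≤ 42) :
    p1 x y h ∈ K := by
  have hx1 : -6 ≤ x := by
    have := hL (-6) (by norm_num) (by norm_num)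
    push_cast at this
    linarith
  have hx2 : x ≤ 7 := by
    have := hL 6 (by norm_num) (by norm_num)
    push_cast at this
    linarith
  -- the upper point
  have hup : p1 x (x + 42) h ∈ K := by
    refine conv2 (p1_int (-6) (by norm_num) (by norm_num) h hh)
      (p1_int 7 (by norm_num) (by norm_num) h hh) (c := (x + 6) / 13) (by linarith)
      (by linarith) ?_
    intro j
    fin_cases j <;> simp [p1] <;> ring
  -- the lower point
  obtain ⟨i, hi1, hi2, hi3, hi4⟩ : ∃ i : ℤ, -6 ≤ i ∧ i ≤ 6 ∧ (i : ℝ) ≤ x ∧ x ≤ i + 1 := by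
    by_cases hx7 : x = 7
    · exact ⟨6, by norm_num, by norm_num, by rw [hx7]; norm_num, by rw [hx7]; norm_num⟩
    · have hx7' : x < 7 := lt_of_le_of_ne hx2 hx7
      refine ⟨⌊x⌋, ?_, ?_, Int.floor_le x, (Int.lt_floor_add_one x).le⟩
      · rw [Int.le_floor]; push_cast; exact hx1
      · have : ⌊x⌋ < 7 := by rw [Int.floor_lt]; push_cast; exact hx7'
        omega
  have hlow : p1 x ((2 * i + 1) * x - i * (i + 1)) h ∈ K := by
    refine conv2 (p1_int i (by omega) (by omega) h hh)
      (p1_int (i + 1) (by omega) (by omega) h hh) (c := x - i) (by linarith)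
      (by linarith) ?_
    intro j
    fin_cases j <;> simp [p1] <;> ring
  have h1 := hL i hi1 hi2
  set lo := (2 * (i : ℝ) + 1) * x - i * (i + 1) with hlo
  have h2 : lo ≤ y := by rw [hlo]; linarith
  by_cases h3 : lo = x + 42
  · have : y = x + 42 := by linarith
    rw [this]; exact hup
  · have h4 : lo < x + 42 := lt_of_le_of_ne (by linarith) h3
    have h5 : 0 < x + 42 - lo := by linarith
    refine conv2 hlow hup (c := (y - lo) / (x + 42 - lo)) (div_nonneg (by linarith) h5.le) ?_ ?_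
    · rw [div_le_one h5]; linarith
    · intro j
      fin_cases j <;> simp [p1] <;> field_simp <;> ring

/-- points with coordinates in the second factor -/
def p2 (a b c : ℝ) : R7 := ![0, 0, 0, a, b, c, 1]

lemma p2_zero : p2 0 0 0 ∈ K := by
  refine conv2 (pt_mem (.Q 0 false)) (pt_mem (.Q 0 true)) (c := 1 / 2) (by norm_num)
    (by norm_num) ?_
  intro j
  fin_cases j <;> simp [p2, pt] <;> norm_num

lemma p2_vert (k : Fin 3) (r : ℝ) :
    ∃ z ∈ K, |r| • z = fun m : Fin 7 => if m = 6 then |r| else if (m : ℕ) = k + 3 then r else 0 := by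
  rcases le_or_gt 0 r with h | h
  · refine ⟨pt (.Q k true), pt_mem _, ?_⟩
    ext m
    simp only [pt, Pi.smul_apply, smul_eq_mul, abs_of_nonneg h]
    split_ifs <;> simp
  · refine ⟨pt (.Q k false), pt_mem _, ?_⟩
    ext m
    simp only [pt, Pi.smul_apply, smul_eq_mul, abs_of_neg h]
    split_ifs <;> simp

lemma p2_mem (a b c : ℝ) (h : |a| + |b| + |c| ≤ 1) : p2 a b c ∈ K := by
  obtain ⟨z0, hz0, h0⟩ := p2_vert 0 a
  obtain ⟨z1, hz1, h1⟩ := p2_vert 1 b
  obtain ⟨z2, hz2, h2⟩ := p2_vert 2 c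
  have key := K_convex.sum_mem (t := (Finset.univ : Finset (Fin 4)))
    (w := ![|a|, |b|, |c|, 1 - |a| - |b| - |c|]) (z := ![z0, z1, z2, p2 0 0 0])
    (by
      intro i _
      fin_cases i
      · exact abs_nonneg a
      · exact abs_nonneg b
      · exact abs_nonneg c
      · show 0 ≤ 1 - |a| - |b| - |c|
        linarith)
    (by simp [Fin.sum_univ_four])
    (by
      intro i _
      fin_cases i
      · exact hz0
      · exact hz1
      · exact hz2
      · exact p2_zero)
  have e : ∑ i : Fin 4, (![|a|, |b|, |c|, 1 - |a| - |b| - |c|] : Fin 4 → ℝ) i •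
      (![z0, z1, z2, p2 0 0 0] : Fin 4 → R7) i = p2 a b c := by
    rw [Fin.sum_univ_four]
    show |a| • z0 + |b| • z1 + |c| • z2 + (1 - |a| - |b| - |c|) • p2 0 0 0 = p2 a b c
    rw [h0, h1, h2]
    ext m
    fin_cases m <;> simp [p2] <;> ring
  rw [e] at key
  exact key

/-- the join part -/
lemma J_mem (z : R7) (hL : ∀ i : ℤ, -6 ≤ i → i ≤ 6 →
      (2 * i + 1) * z 0 + i * (i + 1) * z 6 - z 1 ≤ i * (i + 1))
    (hU : z 1 - z 0 + 42 * z 6 ≤ 42) (hT : |z 2| ≤ 1 - z 6)
    (hV : |z 3| + |z 4| + |z 5| ≤ z 6) : z ∈ K := by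
  have ht : 0 ≤ z 6 := le_trans (by positivity) hV
  have hs : 0 ≤ 1 - z 6 := le_trans (abs_nonneg _) hT
  -- first factor
  have h1 : p1 (z 0 / (1 - z 6)) (z 1 / (1 - z 6)) (z 2 / (1 - z 6)) ∈ K ∧
      z 0 = (1 - z 6) * (z 0 / (1 - z 6)) ∧ z 1 = (1 - z 6) * (z 1 / (1 - z 6)) ∧
      z 2 = (1 - z 6) * (z 2 / (1 - z 6)) := by
    rcases hs.eq_or_lt with h | h
    · have h6 : z 6 = 1 := by linarith
      have hz2 : z 2 = 0 := by
        rw [← h] at hT
        exact abs_eq_zero.1 (le_antisymm hT (abs_nonneg _))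
      have a1 := hL 6 (by norm_num) (by norm_num)
      have a2 := hL (-6) (by norm_num) (by norm_num)
      push_cast at a1 a2
      rw [h6] at a1 a2 hU
      have hz0 : z 0 = 0 := by linarith
      have hz1 : z 1 = 0 := by linarith
      rw [← h, hz0, hz1, hz2]
      simp only [div_zero, mul_zero, and_self, and_true]
      refine p1_mem 0 0 0 (by simp) (fun i _ _ => ?_) (by norm_num)
      have h2 : (0 : ℝ) ≤ ((i + 1) * (i + 1 - 1) : ℤ) := by exact_mod_cast int_prod_nonneg _
      push_cast at h2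
      nlinarith
    · refine ⟨p1_mem _ _ _ ?_ (fun i hi hi' => ?_) ?_, ?_, ?_, ?_⟩
      · rw [abs_div, abs_of_pos h, div_le_one h]; exact hT
      · have := hL i hi hi'
        rw [← sub_nonneg] at this ⊢
        have e : (i : ℝ) * (i + 1) - ((2 * i + 1) * (z 0 / (1 - z 6)) - z 1 / (1 - z 6)) =
            (i * (i + 1) - ((2 * i + 1) * z 0 + i * (i + 1) * z 6 - z 1)) / (1 - z 6) := by
          field_simp; ring
        rw [e]
        exact div_nonneg this h.le
      · rw [← sub_nonneg] at hU ⊢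
        have e : 42 - (z 1 / (1 - z 6) - z 0 / (1 - z 6)) =
            (42 - (z 1 - z 0 + 42 * z 6)) / (1 - z 6) := by
          field_simp; ring
        rw [e]
        exact div_nonneg hU h.le
      · field_simp
      · field_simp
      · field_simp
  have h2 : p2 (z 3 / z 6) (z 4 / z 6) (z 5 / z 6) ∈ K ∧
      z 3 = z 6 * (z 3 / z 6) ∧ z 4 = z 6 * (z 4 / z 6) ∧ z 5 = z 6 * (z 5 / z 6) := by
    rcases ht.eq_or_lt with h | h
    · rw [← h] at hV
      have a3 := abs_nonneg (z 3)
      have a4 := abs_nonneg (z 4)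
      have a5 := abs_nonneg (z 5)
      have e3 : z 3 = 0 := abs_eq_zero.1 (by linarith)
      have e4 : z 4 = 0 := abs_eq_zero.1 (by linarith)
      have e5 : z 5 = 0 := abs_eq_zero.1 (by linarith)
      rw [← h, e3, e4, e5]
      simp only [div_zero, mul_zero, and_self, and_true]
      exact p2_zero
    · refine ⟨p2_mem _ _ _ ?_, ?_, ?_, ?_⟩
      · rw [abs_div, abs_div, abs_div, abs_of_pos h, ← add_div, ← add_div, div_le_one h]
        exact hV
      · field_simp
      · field_simp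
      · field_simp
  obtain ⟨m1, e0, e1, e2⟩ := h1
  obtain ⟨m2, e3, e4, e5⟩ := h2
  refine conv2 m1 m2 (c := z 6) ht (by linarith) ?_
  intro j
  fin_cases j
  · show z 0 = (1 - z 6) * (z 0 / (1 - z 6)) + z 6 * 0
    rw [← e0]; ring
  · show z 1 = (1 - z 6) * (z 1 / (1 - z 6)) + z 6 * 0
    rw [← e1]; ring
  · show z 2 = (1 - z 6) * (z 2 / (1 - z 6)) + z 6 * 0
    rw [← e2]; ring
  · show z 3 = (1 - z 6) * 0 + z 6 * (z 3 / z 6)
    rw [← e3]; ring
  · show z 4 = (1 - z 6) * 0 + z 6 * (z 4 / z 6)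
    rw [← e4]; ring
  · show z 5 = (1 - z 6) * 0 + z 6 * (z 5 / z 6)
    rw [← e5]; ring
  · show z 6 = (1 - z 6) * 0 + z 6 * 1
    ring

lemma abs3 {a b c t : ℝ} (h : ∀ e : Fin 3 → Bool, sg (e 0) * a + sg (e 1) * b + sg (e 2) * c ≤ t) :
    |a| + |b| + |c| ≤ t := by
  have h1 := h ![true, true, true]
  have h2 := h ![true, true, false]
  have h3 := h ![true, false, true]
  have h4 := h ![true, false, false]
  have h5 := h ![false, true, true]
  have h6 := h ![false, true, false]
  have h7 := h ![false, false, true]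
  have h8 := h ![false, false, false]
  simp at h1 h2 h3 h4 h5 h6 h7 h8
  rcases abs_cases a with ⟨ha, _⟩ | ⟨ha, _⟩ <;> rcases abs_cases b with ⟨hb, _⟩ | ⟨hb, _⟩ <;>
    rcases abs_cases c with ⟨hc, _⟩ | ⟨hc, _⟩ <;> rw [ha, hb, hc] <;> linarith

/-- the polytope is given by the 35 inequalities -/
lemma mem_K {z : R7} (h : ∀ i, lin i z ≤ cst i) : z ∈ K := by
  have hL : ∀ i : ℤ, -6 ≤ i → i ≤ 6 → i ≠ 0 →
      (2 * i + 1) * z 0 + i * (i + 1) * z 6 - z 1 ≤ i * (i + 1) := by
    intro i h1 h2 h3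
    exact h (.L ⟨i, Finset.mem_erase.2 ⟨h3, Finset.mem_Icc.2 ⟨h1, h2⟩⟩⟩)
  have hU : z 1 - z 0 + 42 * z 6 ≤ 42 := h .U
  have hT : ∀ b, sg b * z 2 + z 6 ≤ 1 := fun b => h (.T b)
  have hV : ∀ e : Fin 3 → Bool, sg (e 0) * z 3 + sg (e 1) * z 4 + sg (e 2) * z 5 - z 6 ≤ 0 :=
    fun e => h (.V e)
  have hL1 : 2 * z 0 + z 6 - z 1 ≤ 1 := by simpa [lin, cst] using h (.L' true)
  have hL2 : 0 ≤ z 1 := by simpa [lin, cst] using h (.L' false)
  have hT' : ∀ b, 2 * z 0 - 2 * z 1 + sg b * z 2 + z 6 ≤ 1 := fun b => h (.T' b)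
  have hV' : ∀ e : Fin 3 → Bool, 2 * z 0 - 2 * z 1 + sg (e 0) * z 3 + sg (e 1) * z 4 +
      sg (e 2) * z 5 - z 6 ≤ 0 := fun e => h (.V' e)
  by_cases hg : z 0 - z 1 ≤ 0
  · apply J_mem z
    · intro i h1 h2
      by_cases h3 : i = 0
      · subst h3; push_cast; linarith
      · exact hL i h1 h2 h3
    · exact hU
    · rw [abs_le]
      have a1 := hT true
      have a2 := hT false
      simp at a1 a2
      constructor <;> linarith
    · exact abs3 fun e => by have := hV e; linarith
  · push Not at hg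
    set g := z 0 - z 1 with hgdef
    -- `2 g ≤ s` and `2 g ≤ t`
    have a1 : 2 * g ≤ 1 - z 6 := by linarith
    have b3 : |z 3| + |z 4| + |z 5| ≤ z 6 - 2 * g := abs3 fun e => by
      have := hV' e; linarith
    have b2 : |z 2| ≤ 1 - z 6 - 2 * g := by
      rw [abs_le]
      have a1 := hT' true
      have a2 := hT' false
      simp at a1 a2
      constructor <;> linarith
    have a2 : 2 * g ≤ z 6 := by
      have := abs_nonneg (z 3); have := abs_nonneg (z 4); have := abs_nonneg (z 5)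
      linarith
    have a3 : g ≤ 1 / 4 := by linarith
    rcases a3.eq_or_lt with h4 | h4
    · -- the apex
      have h6 : z 6 = 1 / 2 := by linarith
      have h0 : z 1 = 0 := by linarith
      have h0' : z 0 = 1 / 4 := by linarith
      have c2 := abs_nonneg (z 2)
      have c3 := abs_nonneg (z 3)
      have c4 := abs_nonneg (z 4)
      have c5 := abs_nonneg (z 5)
      have e2 : z 2 = 0 := abs_eq_zero.1 (by linarith)
      have e3 : z 3 = 0 := abs_eq_zero.1 (by linarith)
      have e4 : z 4 = 0 := abs_eq_zero.1 (by linarith)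
      have e5 : z 5 = 0 := abs_eq_zero.1 (by linarith)
      have : z = pt .X := by
        ext j
        fin_cases j
        · exact h0'
        · exact h0
        · exact e2
        · exact e3
        · exact e4
        · exact e5
        · exact h6
      rw [this]; exact pt_mem _
    · set c := 1 - 4 * g with hc
      have hc0 : 0 < c := by linarith
      -- the point on the facet
      have hy : (fun j => (z j - 4 * g * pt .X j) / c) ∈ K := by
        have y0 : (z 0 - 4 * g * pt .X 0) / c = (z 0 - g) / c := by rw [pX0]; ring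
        have y1 : (z 1 - 4 * g * pt .X 1) / c = (z 0 - g) / c := by
          rw [pX1, hgdef]; ring
        have y2 : (z 2 - 4 * g * pt .X 2) / c = z 2 / c := by rw [pX2]; ring
        have y3 : (z 3 - 4 * g * pt .X 3) / c = z 3 / c := by rw [pX3]; ring
        have y4 : (z 4 - 4 * g * pt .X 4) / c = z 4 / c := by rw [pX4]; ring
        have y5 : (z 5 - 4 * g * pt .X 5) / c = z 5 / c := by rw [pX5]; ring
        have y6 : (z 6 - 4 * g * pt .X 6) / c = (z 6 - 2 * g) / c := by rw [pX6]; ring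
        have hx0 : 0 ≤ (z 0 - g) / c := div_nonneg (by linarith) hc0.le
        have hx1 : (z 0 - g) / c ≤ 1 - (z 6 - 2 * g) / c := by
          rw [le_sub_iff_add_le, ← add_div, div_le_one hc0]
          linarith
        apply J_mem
        · intro i _ _
          simp only [y0, y1, y6]
          set X := (z 0 - g) / c
          set T := (z 6 - 2 * g) / c
          rcases le_or_gt i (-1) with hi | hi
          · have hi' : (i : ℝ) ≤ -1 := by exact_mod_cast hi
            have e1 : 0 ≤ 2 * X - (i + 1) * (1 - T) := by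
              have : (i + 1) * (1 - T) ≤ 0 := mul_nonpos_of_nonpos_of_nonneg (by linarith) (by linarith)
              linarith
            nlinarith
          · have hi0 : 0 ≤ i := by omega
            rcases hi0.eq_or_lt with h0 | h0
            · rw [← h0]; push_cast; linarith
            · have hi1 : (1 : ℝ) ≤ i := by exact_mod_cast h0
              have e1 : 2 * X - (i + 1) * (1 - T) ≤ 0 := by
                have : 2 * (1 - T) ≤ (i + 1) * (1 - T) :=
                  mul_le_mul_of_nonneg_right (by linarith) (by linarith)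
                linarith
              nlinarith
        · simp only [y0, y1, y6]
          linarith
        · simp only [y2, y6]
          rw [abs_div, abs_of_pos hc0, le_sub_iff_add_le, ← add_div, div_le_one hc0]
          linarith
        · simp only [y3, y4, y5, y6]
          rw [abs_div, abs_div, abs_div, abs_of_pos hc0, ← add_div, ← add_div]
          exact div_le_div_of_nonneg_right (by linarith) hc0.le
      refine conv2 hy (pt_mem .X) (c := 4 * g) (by linarith) (by linarith) ?_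
      intro j
      show z j = (1 - 4 * g) * ((z j - 4 * g * pt .X j) / c) + 4 * g * pt .X j
      rw [← hc, mul_div_cancel₀ _ hc0.ne']
      ring

end Pool.Agent.Q223.VF
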